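import Mathlib

namespace Pool.Agent.Results.MP_349919_co.Yes

open Finset Complex

/-- The lattice `Λ(m) = {(a, b √m)}`, the plane being `ℂ`. -/
def lattice (m : ℕ) : Set ℂ := {z | ∃ a b : ℤ, z = ⟨a, b * √(m : ℝ)⟩}

/-- The determinant of two plane vectors. -/
def cross (u v : ℂ) : ℝ := u.re * v.im - u.im * v.re

/-- `P` lists the vertices of a strictly convex polygon counterclockwise: every vertex other than
the two ends of a side lies strictly to the left of that side. -/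
def IsConvex {n : ℕ} (P : Fin n → ℂ) : Prop :=
  ∀ i j, j ≠ i → j ≠ finRotate n i → 0 < cross (P (finRotate n i) - P i) (P j - P i)

/-- All sides have the same length. -/
def IsEquilateral {n : ℕ} (P : Fin n → ℂ) : Prop := ∃ R, ∀ i, dist (P (finRotate n i)) (P i) = R

/-! ### Sorting by angle -/

lemma cross_sum (u : ℂ) (s : Finset ℕ) (w : ℕ → ℂ) :
    cross u (∑ l ∈ s, w l) = ∑ l ∈ s, cross u (w l) := by
  simp only [cross, re_sum, im_sum, mul_sum, sum_sub_distrib]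

lemma cross_exp (R a b : ℝ) :
    cross (R * exp (a * I)) (R * exp (b * I)) = R * R * Real.sin (b - a) := by
  simp only [cross, re_ofReal_mul, im_ofReal_mul, exp_ofReal_mul_I_re, exp_ofReal_mul_I_im,
    Real.sin_sub]
  ring

lemma polygon (Λ : AddSubgroup ℂ) (S : Finset ℂ) {R : ℝ} (hR : 0 < R) (hS : ∀ z ∈ S, ‖z‖ = R)
    (hΛ : ∀ z ∈ S, z ∈ Λ) (h0 : ∑ z ∈ S, z = 0) :
    ∃ P : Fin #S → ℂ, (∀ i, P i ∈ Λ) ∧ IsConvex P ∧ IsEquilateral P := by
  classical
  have hinj : Set.InjOn arg S := fun x hx y hy h => ext_norm_arg (by rw [hS x hx, hS y hy]) h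
  have hc : #(S.image arg) = #S := card_image_of_injOn hinj
  generalize #S = n at hc
  obtain ⟨θ, hθ⟩ : ∃ θ : ℕ → ℝ, θ = fun l =>
    if h : l < n then (S.image arg).orderEmbOfFin hc ⟨l, h⟩ else 0 := ⟨_, rfl⟩
  have hmono : ∀ {a b}, a < b → b < n → θ a < θ b := fun {a b} h hb => by
    simp only [hθ, dif_pos hb, dif_pos (h.trans hb)]
    exact ((S.image arg).orderEmbOfFin hc).strictMono h
  have hmem : ∀ l < n, ∃ z ∈ S, arg z = θ l := fun l hl => by
    simpa only [hθ, dif_pos hl, mem_image] using (S.image arg).orderEmbOfFin_mem hc ⟨l, hl⟩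
  have hlo : ∀ l < n, -Real.pi < θ l := fun l hl => by
    obtain ⟨z, -, h⟩ := hmem l hl; exact h ▸ neg_pi_lt_arg z
  have hhi : ∀ l < n, θ l ≤ Real.pi := fun l hl => by
    obtain ⟨z, -, h⟩ := hmem l hl; exact h ▸ arg_le_pi z
  obtain ⟨w, hw⟩ : ∃ w : ℕ → ℂ, w = fun l => R * exp (θ l * I) := ⟨_, rfl⟩
  have hz : ∀ z ∈ S, R * exp (arg z * I) = z := fun z h => by
    rw [← hS z h, norm_mul_exp_arg_mul_I]
  have hwS : ∀ l < n, w l ∈ S := fun l hl => by
    obtain ⟨z, h1, h⟩ := hmem l hl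
    simp only [hw, ← h, hz z h1, h1]
  have hsum : ∑ l ∈ range n, w l = 0 := by
    rw [← h0, ← sum_congr rfl hz, ← sum_image (f := fun x : ℝ => R * exp (x * I)) hinj,
      ← (S.image arg).image_orderEmbOfFin_univ hc,
      sum_image fun _ _ _ _ h => ((S.image arg).orderEmbOfFin hc).injective h, sum_range]
    exact sum_congr rfl fun i _ => by simp [hw, hθ]
  have hrot : ∀ i : Fin n, ∑ l ∈ range (finRotate n i), w l - ∑ l ∈ range i, w l = w i := by
    intro i
    obtain ⟨k, rfl⟩ : ∃ k, n = k + 1 := ⟨n - 1, by have := i.2; omega⟩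
    rw [sub_eq_iff_eq_add', ← sum_range_succ]
    rcases eq_or_ne i (Fin.last k) with rfl | h
    · simpa using hsum.symm
    · rw [coe_finRotate_of_ne_last h]
  refine ⟨fun i => ∑ l ∈ range i, w l, fun i => Λ.sum_mem fun l hl =>
    hΛ _ (hwS l ((mem_range.1 hl).trans i.2)), fun i j hji hj => ?_, R, fun i => ?_⟩
  swap
  · rw [dist_eq_norm, hrot, hS _ (hwS i i.2)]
  rw [hrot]
  have hf : ∀ l, cross (w i) (w l) = R * R * Real.sin (θ l - θ i) := fun l => by
    simp only [hw, cross_exp]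
  have hRR : 0 < R * R := mul_pos hR hR
  have hi := i.2
  have tot : ∑ l ∈ range n, R * R * Real.sin (θ l - θ i) = 0 := by
    simp only [← hf, ← cross_sum, hsum]; simp [cross]
  have hne : (j : ℕ) ≠ i + 1 ∧ ¬ ((j : ℕ) = 0 ∧ (i : ℕ) + 1 = n) := by
    obtain ⟨k, rfl⟩ : ∃ k, n = k + 1 := ⟨n - 1, by omega⟩
    rcases eq_or_ne i (Fin.last k) with rfl | h
    · have := j.2
      simp only [finRotate_last, Fin.val_last] at hj ⊢
      exact ⟨by omega, fun h => hj (Fin.ext h.1)⟩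
    · refine ⟨fun e => hj (Fin.ext (by rw [coe_finRotate_of_ne_last h, e])), fun e => h ?_⟩
      exact Fin.ext (by simpa using e.2)
  have hj2 := j.2
  have mono : ∀ {a b}, a ≤ b → b < n → θ a ≤ θ b := fun {a b} h hb =>
    h.eq_or_lt.elim (fun e => e ▸ le_rfl) fun h => (hmono h hb).le
  have hji' := Fin.val_ne_iff.2 hji
  beta_reduce
  clear hj hji hrot hθ hmem hw hwS hz hc hinj hsum
  generalize (i : ℕ) = i at *
  generalize (j : ℕ) = j at *
  rcases lt_or_gt_of_ne hji' with h | h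
  · have e : ∑ l ∈ range j, w l - ∑ l ∈ range i, w l = ∑ l ∈ Ico (j : ℕ) i, -w l := by
      rw [sum_neg_distrib, sum_Ico_eq_sub _ h.le, neg_sub]
    have e2 : ∀ l, cross (w i) (-w l) = -(R * R * Real.sin (θ l - θ i)) := fun l => by
      rw [← hf]; simp only [cross, neg_re, neg_im]; ring
    rw [e, cross_sum]
    simp only [e2]
    by_cases hc : -Real.pi < θ j - θ i
    · refine sum_pos (fun l hl => neg_pos.2 (mul_neg_of_pos_of_neg hRR ?_)) ⟨j, by simp [h]⟩
      rw [mem_Ico] at hl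
      have := mono hl.1 (by omega)
      exact Real.sin_neg_of_neg_of_neg_pi_lt (sub_neg.2 (hmono hl.2 hi)) (by linarith)
    · rw [sum_neg_distrib, neg_pos]
      rw [← sum_sdiff (s₁ := Ico (j : ℕ) i) (fun l hl => by rw [mem_Ico] at hl; simp; omega)] at tot
      have pos : ∀ l < n, l < j ∨ i < l → 0 < Real.sin (θ l - θ i) := fun l hl h' => by
        rcases h' with h' | h'
        · rw [← Real.sin_add_two_pi]
          have := hmono h' hj2
          exact Real.sin_pos_of_pos_of_lt_pi (by linarith [hlo l hl, hhi i hi]) (by linarith)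
        · have := hmono h' hl
          exact Real.sin_pos_of_pos_of_lt_pi (by linarith) (by linarith [hlo j hj2, hhi l hl])
      have : 0 < ∑ l ∈ range n \ Ico (j : ℕ) i, R * R * Real.sin (θ l - θ i) := by
        refine sum_pos' (fun l hl => ?_) ?_
        · simp only [mem_sdiff, mem_range, mem_Ico] at hl
          rcases eq_or_ne l i with rfl | h'
          · simp
          · exact (mul_pos hRR (pos l hl.1 (by omega))).le
        · by_cases h' : (j : ℕ) = 0
          · exact ⟨i + 1, by simp; omega, mul_pos hRR (pos _ (by omega) (by omega))⟩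
          · exact ⟨0, by simp; omega, mul_pos hRR (pos _ (by omega) (by omega))⟩
      linarith
  · rw [← sum_Ico_eq_sub _ h.le, cross_sum]
    simp only [hf]
    by_cases hc : θ (j - 1) - θ i < Real.pi
    · have pos : ∀ l < j, i < l → 0 < Real.sin (θ l - θ i) := fun l hl h' => by
        have := mono (show l ≤ j - 1 by omega) (by omega)
        exact Real.sin_pos_of_pos_of_lt_pi (sub_pos.2 (hmono h' (by omega))) (by linarith)
      refine sum_pos' (fun l hl => ?_) ⟨i + 1, by simp; omega,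
        mul_pos hRR (pos _ (by omega) (by omega))⟩
      rw [mem_Ico] at hl
      rcases eq_or_ne l i with rfl | h'
      · simp
      · exact (mul_pos hRR (pos l hl.2 (by omega))).le
    · rw [← sum_sdiff (s₁ := Ico (i : ℕ) j) (fun l hl => by rw [mem_Ico] at hl; simp; omega)] at tot
      have : ∑ l ∈ range n \ Ico (i : ℕ) j, R * R * Real.sin (θ l - θ i) < 0 := by
        refine sum_neg (fun l hl => mul_neg_of_pos_of_neg hRR ?_) ⟨j, by simp [hj2]⟩
        simp only [mem_sdiff, mem_range, mem_Ico] at hl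
        by_cases h' : l < i
        · exact Real.sin_neg_of_neg_of_neg_pi_lt (sub_neg.2 (hmono h' hi))
            (by linarith [hlo l hl.1, hhi (j - 1) (by omega)])
        · rw [← Real.sin_sub_two_pi]
          have := hmono (show j - 1 < l by omega) hl.1
          exact Real.sin_neg_of_neg_of_neg_pi_lt (by linarith [hhi l hl.1, hlo i hi]) (by linarith)
      linarith

/-! ### Norm-one elements of `ℚ(√-m)` -/

variable {m : ℕ}

noncomputable def ι (m : ℕ) : ℤ√(-m) →+* ℂ :=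
  Zsqrtd.lift ⟨√(m : ℝ) * I, by
    rw [mul_mul_mul_comm, ← ofReal_mul, Real.mul_self_sqrt (Nat.cast_nonneg m)]; simp⟩

lemma ι_eq (x : ℤ√(-m)) : ι m x = ⟨x.re, x.im * √(m : ℝ)⟩ := by
  simp [ι, Complex.ext_iff]

lemma ι_inj (hm : 0 < m) : Function.Injective (ι m) :=
  Zsqrtd.lift_injective _ fun n h => by have := mul_self_nonneg n; omega

lemma ι_star (x : ℤ√(-m)) : ι m (star x) = (starRingEnd ℂ) (ι m x) := by
  simp [ι_eq, Complex.ext_iff]

/-- Norm-one elements with a multiple in the lattice. -/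
def U (m : ℕ) (z : ℂ) : Prop := ‖z‖ = 1 ∧ ∃ d : ℕ, 0 < d ∧ ∃ x, (d : ℂ) * z = ι m x

lemma U.ne {z : ℂ} (h : U m z) : z ≠ 0 := by rintro rfl; simpa using h.1

lemma U.one : U m 1 := ⟨norm_one, 1, one_pos, 1, by simp⟩

lemma U.mul {z w : ℂ} (h : U m z) (h' : U m w) : U m (z * w) := by
  obtain ⟨h1, d, hd, x, hx⟩ := h
  obtain ⟨h2, e, he, y, hy⟩ := h'
  exact ⟨by rw [norm_mul, h1, h2, one_mul], d * e, mul_pos hd he, x * y, by
    rw [map_mul, ← hx, ← hy]; push_cast; ring⟩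

lemma U.neg {z : ℂ} (h : U m z) : U m (-z) := by
  obtain ⟨h1, d, hd, x, hx⟩ := h
  exact ⟨by rw [norm_neg, h1], d, hd, -x, by rw [map_neg, ← hx, mul_neg]⟩

lemma U.inv {z : ℂ} (h : U m z) : U m z⁻¹ := by
  obtain ⟨h1, d, hd, x, hx⟩ := h
  exact ⟨by rw [norm_inv, h1, inv_one], d, hd, star x, by
    rw [ι_star, ← hx, inv_eq_conj h1, map_mul, map_natCast]⟩

lemma U.zpow {z : ℂ} (h : U m z) (k : ℤ) : U m (z ^ k) := by
  have : ∀ k : ℕ, U m (z ^ k) := fun k => by
    induction k with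
    | zero => simpa using U.one
    | succ k ih => rw [pow_succ]; exact ih.mul h
  rcases k with k | k
  · simpa using this k
  · rw [zpow_negSucc]; exact (this _).inv

noncomputable def un (x : ℤ√(-m)) : ℂ := ι m x / ι m (star x)

lemma un_U (hm : 0 < m) {x : ℤ√(-m)} (hx : x ≠ 0) : U m (un x) := by
  have h0 : ι m x ≠ 0 := (map_ne_zero_iff _ (ι_inj hm)).2 hx
  have h1 : ι m (star x) ≠ 0 := (map_ne_zero_iff _ (ι_inj hm)).2 (star_ne_zero.2 hx)
  have h2 : (0 : ℤ) ≤ x.norm := Zsqrtd.norm_nonneg (by omega) x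
  have h3 : ((x.norm.toNat : ℕ) : ℂ) = ι m x * ι m (star x) := by
    rw [← map_mul, ← Zsqrtd.norm_eq_mul_conj, map_intCast, ← Int.cast_natCast,
      Int.toNat_of_nonneg h2]
  refine ⟨by rw [un, ι_star, norm_div, norm_conj, div_self (norm_ne_zero_iff.2 h0)],
    x.norm.toNat, Nat.pos_of_ne_zero fun e => ?_, x * x, ?_⟩
  · rw [e, Nat.cast_zero] at h3; exact mul_ne_zero h0 h1 h3.symm
  · rw [h3, un, map_mul]; field_simp

lemma key (hm : 0 < m) {p : ℕ} [Nontrivial (ZMod p)] (φ : ℤ√(-m) →+* ZMod p) {α β : ℤ√(-m)}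
    (h1 : φ (star α) = 0) (h2 : IsUnit (φ α)) (h3 : IsUnit (φ (β * star β))) {i : ℕ} (hi : i ≠ 0)
    (j : ℤ) : un α ^ i * un β ^ j ≠ 1 := by
  have aux : ∀ β : ℤ√(-m), IsUnit (φ (β * star β)) → ∀ k : ℕ, un α ^ i * un β ^ k ≠ 1 := by
    intro β h3 k h
    have a0 : α ≠ 0 := by rintro rfl; simp at h2
    have b0 : β ≠ 0 := by rintro rfl; simp at h3
    have a1 : ι m (star α) ≠ 0 := (map_ne_zero_iff _ (ι_inj hm)).2 (star_ne_zero.2 a0)
    have b1 : ι m (star β) ≠ 0 := (map_ne_zero_iff _ (ι_inj hm)).2 (star_ne_zero.2 b0)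
    have : α ^ i * β ^ k = star α ^ i * star β ^ k := ι_inj hm (by
      simp only [map_mul, map_pow]
      rw [un, un, div_pow, div_pow, div_mul_div_comm, div_eq_one_iff_eq (by simp [a1, b1])] at h
      exact h)
    have h4 := congrArg φ this
    rw [map_mul] at h3
    simp only [map_mul, map_pow, h1, zero_pow hi, zero_mul] at h4
    exact ((h2.pow i).mul ((isUnit_of_mul_isUnit_left h3).pow k)).ne_zero h4
  rcases j with k | k
  · simpa using aux β h3 k
  · have := aux (star β) (by rwa [star_star, mul_comm]) (k + 1)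
    rwa [zpow_negSucc, ← inv_pow, un.eq_1 β, inv_div, un.eq_1 (star β), star_star] at *

lemma indep (hm : m % 4 = 3) : ∃ a b, U m a ∧ U m b ∧
    ∀ i j : ℤ, a ^ i * b ^ j = 1 → i = 0 ∧ j = 0 := by
  have h0 : 0 < m := by omega
  have cop : ∀ {x p : ℕ}, x.Coprime p → IsUnit (x : ZMod p) := fun h =>
    (ZMod.isUnit_iff_coprime _ _).2 h
  have c2 : Nat.Coprime 2 m := (Nat.coprime_two_left).2 (Nat.odd_iff.2 (by omega))
  have c4 : Nat.Coprime 4 m := c2.pow_left 2
  haveI : Fact (1 < m + 4) := ⟨by omega⟩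
  obtain ⟨y, hy⟩ : ∃ y, y = 2 * (m + 4) := ⟨_, rfl⟩
  haveI : Fact (1 < y * y + m) := ⟨by omega⟩
  have hp : ((m + 4 : ℕ) : ZMod (m + 4)) = 0 := ZMod.natCast_self _
  have hq : ((y * y + m : ℕ) : ZMod (y * y + m)) = 0 := ZMod.natCast_self _
  push_cast at hp hq
  let φ : ℤ√(-m) →+* ZMod (m + 4) := Zsqrtd.lift ⟨2, by push_cast; linear_combination hp⟩
  let ψ : ℤ√(-m) →+* ZMod (y * y + m) := Zsqrtd.lift ⟨y, by push_cast; linear_combination hq⟩
  have ha : U m (un ⟨2, 1⟩) := un_U h0 (by simp [Zsqrtd.ext_iff])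
  have hb : U m (un ⟨y, 1⟩) := un_U h0 (by simp [Zsqrtd.ext_iff])
  have k1 := fun (i : ℕ) (hi : i ≠ 0) => key h0 φ (α := ⟨2, 1⟩) (β := ⟨y, 1⟩) (by simp [φ])
    (by
      have := cop (show Nat.Coprime 4 (m + 4) by simpa using c4)
      convert this using 1; simp [φ]; norm_num)
    (by
      have := cop (show Nat.Coprime m (m + 4) by simpa using c4.symm)
      convert this using 1
      simp only [φ, hy, Zsqrtd.star_mk, map_mul, Zsqrtd.lift_apply_apply]
      push_cast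
      linear_combination (4 * (m + 4) - 1 : ZMod (m + 4)) * hp) hi
  have k2 := fun (i : ℕ) (hi : i ≠ 0) => key h0 ψ (α := ⟨y, 1⟩) (β := 1) (by simp [ψ])
    (by
      have cy : Nat.Coprime y m := hy ▸ c2.mul_left (by simpa using c4)
      have : Nat.Coprime (2 * y) (y * y + m) := by
        refine Nat.Coprime.mul_left ?_ (by simpa using cy)
        rw [hy, mul_assoc, Nat.coprime_mul_left_add_right]; exact c2
      convert cop this using 1; simp [ψ]; ring)
    (by simp) hi 0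
  simp only [zpow_zero, mul_one] at k2
  refine ⟨_, _, ha, hb, fun i j h => ?_⟩
  have hi : i = 0 := by
    by_contra hi
    rcases Int.natAbs_eq i with e | e
    · rw [e, zpow_natCast] at h; exact k1 _ (by omega) _ h
    · refine k1 i.natAbs (by omega) (-j) ?_
      rw [← inv_eq_one, mul_inv, ← zpow_natCast, ← zpow_neg, ← zpow_neg, ← e, neg_neg, h]
  refine ⟨hi, ?_⟩
  rw [hi, zpow_zero, one_mul] at h
  by_contra hj
  refine k2 j.natAbs (by omega) ?_
  rcases Int.natAbs_eq j with e | e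
  · rwa [e, zpow_natCast] at h
  · rwa [e, zpow_neg, inv_eq_one, zpow_natCast] at h

lemma relation (hm : 0 < m) {a b : ℂ} (ha : U m a) (hb : U m b) :
    ∃ A B : Finset (ℕ × ℕ), A ≠ B ∧ ∑ x ∈ A, a ^ x.1 * b ^ x.2 = ∑ x ∈ B, a ^ x.1 * b ^ x.2 := by
  obtain ⟨a1, d, hd, α, hα⟩ := ha
  obtain ⟨b1, e, he, β, hβ⟩ := hb
  obtain ⟨M, hM⟩ : ∃ M, M = 2 * (d * e) + 9 := ⟨_, rfl⟩
  obtain ⟨g, hg⟩ : ∃ g : ℕ × ℕ → ℤ√(-m),
    g = fun x => α ^ x.1 * β ^ x.2 * (d ^ (M - x.1) * e ^ (M - x.2)) := ⟨_, rfl⟩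
  have h1 : ∀ x ∈ range M ×ˢ range M, ι m (g x) = (d * e) ^ M * (a ^ x.1 * b ^ x.2) := by
    intro x hx
    simp only [mem_product, mem_range] at hx
    simp only [hg, map_mul, map_pow, map_natCast, ← hα, ← hβ, mul_pow]
    rw [← pow_mul_pow_sub (d : ℂ) hx.1.le, ← pow_mul_pow_sub (e : ℂ) hx.2.le]; ring
  have h2 : ∀ A ∈ (range M ×ˢ range M).powerset,
      ι m (∑ x ∈ A, g x) = (d * e) ^ M * ∑ x ∈ A, a ^ x.1 * b ^ x.2 := fun A hA => by
    rw [map_sum, mul_sum]
    exact sum_congr rfl fun x hx => h1 x (mem_powerset.1 hA hx)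
  obtain ⟨ρ, hρ⟩ : ∃ ρ : ℕ, ρ = (d * e) ^ M * (M * M) := ⟨_, rfl⟩
  suffices H : ∃ A ∈ (range M ×ˢ range M).powerset, ∃ B ∈ (range M ×ˢ range M).powerset, A ≠ B ∧
      ((∑ x ∈ A, g x).re, (∑ x ∈ A, g x).im) = ((∑ x ∈ B, g x).re, (∑ x ∈ B, g x).im) by
    obtain ⟨A, hA, B, hB, hne, h⟩ := H
    refine ⟨A, B, hne, mul_left_cancel₀ (a := ((d : ℂ) * e) ^ M) (by simp; omega) ?_⟩
    rw [← h2 A hA, ← h2 B hB, Zsqrtd.ext (Prod.mk.inj h).1 (Prod.mk.inj h).2]
  refine exists_ne_map_eq_of_card_lt_of_maps_to (t := Icc (-ρ : ℤ) ρ ×ˢ Icc (-ρ : ℤ) ρ) ?_ ?_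
  · rw [card_product, card_powerset, card_product, card_range, Int.card_Icc,
      show ((ρ : ℤ) + 1 - -ρ).toNat = 2 * ρ + 1 by omega]
    have e1 : (d * e) ^ M ≤ (2 ^ (d * e)) ^ M := Nat.pow_le_pow_left Nat.lt_two_pow_self.le _
    have e2 : M < 2 ^ M := Nat.lt_two_pow_self
    have e3 : 2 * ρ + 1 ≤ 2 ^ ((d * e + 4) * M) := by
      have : ρ ≤ (2 ^ (d * e)) ^ M * (2 ^ M * 2 ^ M) := by rw [hρ]; gcongr
      have h3 : 0 < (2 ^ (d * e)) ^ M * (2 ^ M * 2 ^ M) := by positivity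
      have h4 : 3 ≤ 2 ^ M * 2 ^ M := by nlinarith
      calc _ ≤ (2 ^ (d * e)) ^ M * (2 ^ M * 2 ^ M) * 3 := by omega
        _ ≤ (2 ^ (d * e)) ^ M * (2 ^ M * 2 ^ M) * (2 ^ M * 2 ^ M) := by gcongr
        _ = _ := by ring
    refine (Nat.mul_le_mul e3 e3).trans_lt ?_
    rw [← pow_add]
    exact Nat.pow_lt_pow_right one_lt_two (by nlinarith)
  · intro A hA
    have h3 : ‖ι m (∑ x ∈ A, g x)‖ ≤ ρ := by
      rw [h2 A hA, norm_mul, hρ]
      push_cast
      refine mul_le_mul (by simp) ((norm_sum_le _ _).trans ?_) (norm_nonneg _) (by positivity)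
      have := card_le_card (mem_powerset.1 hA)
      rw [card_product, card_range] at this
      simp only [norm_mul, norm_pow, a1, b1, one_pow, mul_one, sum_const, nsmul_eq_mul]
      exact_mod_cast this
    have h4 := (abs_re_le_norm _).trans h3
    have h5 := (abs_im_le_norm _).trans h3
    simp only [ι_eq, abs_mul] at h4 h5
    have h6 : 1 ≤ |√(m : ℝ)| := le_abs.2 (Or.inl (Real.one_le_sqrt.2 (by exact_mod_cast hm)))
    have h7 := (le_mul_of_one_le_right (abs_nonneg _) h6).trans h5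
    simp only [coe_product, coe_Icc, Set.mem_prod, Set.mem_Icc, ← abs_le]
    exact ⟨by exact_mod_cast h4, by exact_mod_cast h7⟩

lemma generic (hm : m % 4 = 3) (F : Finset ℂ) : ∃ S : Finset ℂ, (∀ s ∈ S, U m s) ∧ Odd #S ∧
    (∑ s ∈ S, s = 0 ∨ ∑ s ∈ S, s = 1 ∧ Disjoint S F) := by
  classical
  obtain ⟨a, b, ha, hb, hab⟩ := indep hm
  obtain ⟨e, he⟩ : ∃ e : ℤ × ℤ → ℂ, e = fun x => a ^ x.1 * b ^ x.2 := ⟨_, rfl⟩
  have eadd : ∀ x y, e (x + y) = e x * e y := fun x y => by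
    simp only [he, Prod.fst_add, Prod.snd_add, zpow_add₀ ha.ne, zpow_add₀ hb.ne]; ring
  have eU : ∀ x, U m (e x) := fun x => he ▸ (ha.zpow _).mul (hb.zpow _)
  have einj : Function.Injective fun x => e x ^ 2 := fun x y h => by
    have h1 : e (x - y) * e y = e x := by rw [← eadd, sub_add_cancel]
    have h2 : e (x - y + (x - y)) = 1 := by
      rw [eadd, ← sq]
      refine mul_right_cancel₀ (pow_ne_zero 2 (eU y).ne) ?_
      rw [← mul_pow, h1, one_mul]; exact h
    have := hab _ _ (he ▸ h2 :)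
    simp only [Prod.fst_add, Prod.fst_sub, Prod.snd_add, Prod.snd_sub] at this
    exact Prod.ext (by omega) (by omega)
  obtain ⟨L, hL⟩ := (((F.image (· ^ 2)).finite_toSet.preimage einj.injOn).image
    fun x => x.1.natAbs + x.2.natAbs).bddAbove
  have hF : ∀ x : ℤ × ℤ, x ≠ 0 → e ((L + 1) • x) ^ 2 ∉ F.image (· ^ 2) := fun x hx h => by
    have := hL ⟨_, h, rfl⟩
    simp only [Prod.smul_fst, Prod.smul_snd] at this
    simp only [nsmul_eq_mul, Int.natAbs_mul, Int.natAbs_natCast, ← mul_add] at this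
    have h1 : 0 < x.1.natAbs + x.2.natAbs := by
      by_contra h0
      exact hx (Prod.ext (by simp; omega) (by simp; omega))
    nlinarith
  obtain ⟨A, B, hne, h⟩ := relation (by omega) (ha.zpow (L + 1 : ℕ)) (hb.zpow (L + 1 : ℕ))
  obtain ⟨c, hc⟩ : ∃ c : ℕ × ℕ → ℤ × ℤ, c = fun x => ((x.1 : ℤ), (x.2 : ℤ)) := ⟨_, rfl⟩
  have cinj : Function.Injective c := fun x y h => by
    simp only [hc, Prod.mk.injEq, Nat.cast_inj] at h; exact Prod.ext h.1 h.2
  have h1 : ∀ x : ℕ × ℕ, (a ^ ((L + 1 : ℕ) : ℤ)) ^ x.1 * (b ^ ((L + 1 : ℕ) : ℤ)) ^ x.2 =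
      e ((L + 1) • c x) := fun x => by
    simp only [he, hc, Prod.smul_mk, nsmul_eq_mul, zpow_mul, zpow_natCast]
  simp only [h1] at h
  obtain ⟨g, hg⟩ : ∃ g : ℕ × ℕ → ℂ,
    g = fun x => if x ∈ A then e ((L + 1) • c x) else -e ((L + 1) • c x) := ⟨_, rfl⟩
  have g2 : ∀ x, g x ^ 2 = e ((L + 1) • c x) ^ 2 := fun x => by
    simp only [hg]; split_ifs <;> simp
  have gU : ∀ x, U m (g x) := fun x => by
    simp only [hg]; split_ifs; exacts [eU _, (eU _).neg]
  have ginj : Function.Injective g := fun x y h =>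
    cinj (nsmul_right_injective (Nat.succ_ne_zero L) (einj (by simp only [← g2, h])))
  have hs : ∑ x ∈ A \ B ∪ B \ A, g x = 0 := by
    have gA : ∀ x ∈ A \ B, g x = e ((L + 1) • c x) := fun x hx => by
      simp only [hg, if_pos (mem_sdiff.1 hx).1]
    have gB : ∀ x ∈ B \ A, g x = -e ((L + 1) • c x) := fun x hx => by
      simp only [hg, if_neg (mem_sdiff.1 hx).2]
    rw [sum_union disjoint_sdiff_sdiff, sum_congr rfl gA, sum_congr rfl gB,
      sum_neg_distrib, ← sub_eq_add_neg, sum_sdiff_sub_sum_sdiff, h, sub_self]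
  obtain ⟨x0, hx0⟩ : (A \ B ∪ B \ A).Nonempty := symmDiff_nonempty.2 hne
  generalize A \ B ∪ B \ A = C at hs hx0
  rcases Nat.even_or_odd #C with hC | hC
  · have i2 : Function.Injective fun x => -(g x * (g x0)⁻¹) := fun x y h =>
      ginj (mul_right_cancel₀ (gU x0).inv.ne (neg_injective h))
    refine ⟨(C.erase x0).image fun x => -(g x * (g x0)⁻¹), ?_, ?_, Or.inr ⟨?_, ?_⟩⟩
    · simp only [mem_image]; rintro _ ⟨x, -, rfl⟩; exact ((gU x).mul (gU x0).inv).neg
    · rw [card_image_of_injective _ i2, card_erase_of_mem hx0]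
      exact Nat.Even.sub_odd (card_pos.2 ⟨_, hx0⟩) hC odd_one
    · rw [sum_image fun _ _ _ _ h => i2 h, sum_neg_distrib, ← sum_mul, sum_erase_eq_sub hx0, hs]
      simp [(gU x0).ne]
    · rw [disjoint_left]
      simp only [mem_image]
      rintro _ ⟨x, hx, rfl⟩ hf
      refine hF (c x - c x0) (sub_ne_zero.2 (cinj.ne (ne_of_mem_erase hx))) (mem_image.2 ⟨_, hf, ?_⟩)
      have : e ((L + 1) • (c x - c x0)) * e ((L + 1) • c x0) = e ((L + 1) • c x) := by
        rw [← eadd, ← nsmul_add, sub_add_cancel]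
      rw [neg_sq, mul_pow, inv_pow, g2, g2, ← this, mul_pow,
        mul_inv_cancel_right₀ (pow_ne_zero 2 (eU _).ne)]
  · refine ⟨C.image g, ?_, by rwa [card_image_of_injective _ ginj], Or.inl ?_⟩
    · simp only [mem_image]; rintro _ ⟨x, -, rfl⟩; exact gU x
    · rwa [sum_image fun _ _ _ _ h => ginj h]

lemma odd_zero (hm : m % 4 = 3) : ∃ S : Finset ℂ, (∀ s ∈ S, U m s) ∧ Odd #S ∧ ∑ s ∈ S, s = 0 := by
  classical
  by_contra H
  let Q : ℂ → ℕ → Prop := fun z k => ∃ T : Finset ℂ, (∀ s ∈ T, U m s) ∧ #T % 2 = k % 2 ∧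
    ∑ s ∈ T, s = z
  have step : ∀ z k u, U m u → Q z k → Q (z + u) (k + 1) := by
    rintro z k u hu ⟨T, hT, hk, rfl⟩
    obtain ⟨S, hS, ho, h | ⟨h, hd⟩⟩ := generic hm (T.image (u⁻¹ * ·))
    · exact absurd ⟨S, hS, ho, h⟩ H
    have i1 : Function.Injective (u * ·) := mul_right_injective₀ hu.ne
    have hd' : Disjoint T (S.image (u * ·)) := by
      simp only [disjoint_right, mem_image]
      rintro _ ⟨s, hs, rfl⟩ h
      exact disjoint_left.1 hd hs (mem_image.2 ⟨_, h, inv_mul_cancel_left₀ hu.ne s⟩)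
    refine ⟨T ∪ S.image (u * ·), fun s hs => ?_, ?_, ?_⟩
    · rcases mem_union.1 hs with hs | hs
      · exact hT s hs
      · obtain ⟨s, hs', rfl⟩ := mem_image.1 hs; exact hu.mul (hS s hs')
    · rw [card_union_of_disjoint hd', card_image_of_injective _ i1]
      have := Nat.odd_iff.1 ho; omega
    · rw [sum_union hd', sum_image fun _ _ _ _ h => i1 h, ← mul_sum, h, mul_one]
  have iter : ∀ z k u, U m u → Q z k → ∀ c : ℕ, Q (z + c * u) (k + c) := fun z k u hu h c => by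
    induction c with
    | zero => simpa using h
    | succ c ih => rw [Nat.cast_succ, add_mul, one_mul, ← add_assoc]; exact step _ _ u hu ih
  obtain ⟨r, hr⟩ : ∃ r, m = 4 * r + 3 := ⟨m / 4, by omega⟩
  have hu : U m (un ⟨1, 1⟩) := un_U (by omega) (by simp [Zsqrtd.ext_iff])
  obtain ⟨T, hT, hk, hs⟩ := iter _ _ _ U.one (iter _ _ _ hu.inv
    (iter 0 0 _ hu ⟨∅, by simp, rfl, rfl⟩ (r + 1)) (r + 1)) (2 * r + 1)
  refine H ⟨T, hT, Nat.odd_iff.2 (by omega), hs.trans ?_⟩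
  have h0 : ι m ⟨1, 1⟩ ≠ 0 := (map_ne_zero_iff _ (ι_inj (by omega))).2 (by simp [Zsqrtd.ext_iff])
  have h1 : ι m (star ⟨1, 1⟩) ≠ 0 :=
    (map_ne_zero_iff _ (ι_inj (by omega))).2 (by simp [Zsqrtd.ext_iff])
  have h2 : ι m ((r + 1) * ⟨1, 1⟩ ^ 2 + (r + 1) * star ⟨1, 1⟩ ^ 2 +
      (2 * r + 1) * (⟨1, 1⟩ * star ⟨1, 1⟩)) = ι m 0 := by
    congr 1
    ext <;> simp [sq, hr] <;> ring
  simp only [map_add, map_mul, map_pow, map_natCast, map_one, map_zero, map_ofNat] at h2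
  rw [un, inv_div]
  field_simp
  push_cast
  linear_combination h2

theorem result (m : ℕ) (hm : m % 4 = 3) : ∃ N, ∀ n ≥ N, 3 ≤ n ∧
    ∃ P : Fin n → ℂ, (∀ i, P i ∈ lattice m) ∧ IsConvex P ∧ IsEquilateral P := by
  classical
  obtain ⟨S0, h1, h2, h3⟩ := odd_zero hm
  obtain ⟨a, b, ha, hb, hab⟩ := indep hm
  have step : ∀ T : Finset ℂ, (∀ s ∈ T, U m s) → ∑ s ∈ T, s = 0 → ∀ k, ∃ T' : Finset ℂ,
      (∀ s ∈ T', U m s) ∧ ∑ s ∈ T', s = 0 ∧ #T' = #T + 2 * k := fun T hT h0 k => by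
    induction k with
    | zero => exact ⟨T, hT, h0, rfl⟩
    | succ k ih =>
      obtain ⟨T', h1, h2, h3⟩ := ih
      have hinf : (Set.range fun i : ℤ => a ^ i).Infinite :=
        Set.infinite_range_of_injective fun i j h => by
          have := (hab (i - j) 0 (by
            rw [zpow_zero, mul_one, zpow_sub₀ ha.ne, div_eq_one_iff_eq (ha.zpow j).ne]; exact h)).1
          omega
      obtain ⟨_, ⟨i, rfl⟩, hi⟩ := hinf.exists_notMem_finset (T' ∪ T'.image (- ·))
      simp only [mem_union, mem_image, not_or, not_exists, not_and] at hi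
      have hu := ha.zpow i
      have n1 : -a ^ i ∉ T' := fun h => hi.2 _ h (neg_neg _)
      have n2 : a ^ i ∉ insert (-a ^ i) T' := by
        simp only [mem_insert, not_or]
        exact ⟨fun h => hu.ne (self_eq_neg.1 h), hi.1⟩
      refine ⟨insert (a ^ i) (insert (-a ^ i) T'), ?_, ?_, ?_⟩
      · simp only [mem_insert]
        rintro s (rfl | rfl | h)
        exacts [hu, hu.neg, h1 s h]
      · rw [sum_insert n2, sum_insert n1, h2]; ring
      · rw [card_insert_of_notMem n2, card_insert_of_notMem n1, h3]; ring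
  refine ⟨#S0 + 3, fun n hn => ⟨by omega, ?_⟩⟩
  obtain ⟨T, hT, h0, rfl⟩ : ∃ T : Finset ℂ, (∀ s ∈ T, U m s) ∧ ∑ s ∈ T, s = 0 ∧ #T = n := by
    have := Nat.odd_iff.1 h2
    by_cases h : n % 2 = 0
    · obtain ⟨T, h4, h5, h6⟩ := step ∅ (by simp) rfl (n / 2)
      exact ⟨T, h4, h5, by rw [h6, card_empty]; omega⟩
    · obtain ⟨T, h4, h5, h6⟩ := step S0 h1 h3 ((n - #S0) / 2)
      exact ⟨T, h4, h5, by omega⟩
  choose! d hd x hx using fun s hs => (hT s hs).2
  have hD : 0 < ∏ s ∈ T, d s := prod_pos hd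
  have i1 : Function.Injective (((∏ s ∈ T, d s : ℕ) : ℂ) * ·) :=
    mul_right_injective₀ (by exact_mod_cast hD.ne')
  obtain ⟨P, hP, hc⟩ := polygon (ι m).range.toAddSubgroup (T.image (((∏ s ∈ T, d s : ℕ) : ℂ) * ·))
    (R := (∏ s ∈ T, d s : ℕ)) (by exact_mod_cast hD)
    (by simp only [mem_image]; rintro _ ⟨s, hs, rfl⟩; rw [norm_mul, (hT s hs).1]; simp)
    (by
      simp only [mem_image]
      rintro _ ⟨s, hs, rfl⟩
      obtain ⟨c, hc⟩ := dvd_prod_of_mem d hs
      exact ⟨c * x s, by rw [map_mul, map_natCast, ← hx s hs, hc]; push_cast; ring⟩)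
    (by rw [sum_image fun _ _ _ _ h => i1 h, ← mul_sum, h0, mul_zero])
  rw [← card_image_of_injective T i1]
  refine ⟨P, fun i => ?_, hc⟩
  obtain ⟨y, hy⟩ := hP i
  exact ⟨y.re, y.im, by rw [← hy, ι_eq]⟩

end Pool.Agent.Results.MP_349919_co.Yes
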